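import Pool.Agent.H71.HV.Targets2

/-!
# BDD: bounded rank
-/

set_option autoImplicit false

open Set Topology TopologicalSpace Filter

namespace Pool.Agent.H57.HV

open Pool.Agent.H71.HV

universe u v

/-- BDD -/
theorem bdd : BddAsmStmt.{u, v} := by
  intro hO hM hS G Y _ _ _ _ _ _ _ _ C θ hθ hst
  classical
  have hθ3 : (θ + 3).card ≤ Cardinal.aleph0 := by
    rw [Ordinal.card_add]
    refine Cardinal.add_le_aleph0.2 ⟨hθ, ?_⟩
    simp
  let E : Setoid (ℕ → ℕ) :=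
    { r := fun z z' => ∃ g : G, g • C.f z = C.f z'
      iseqv := by
        refine ⟨fun z => ⟨1, one_smul _ _⟩, ?_, ?_⟩
        · rintro z z' ⟨g, hg⟩
          exact ⟨g⁻¹, by rw [← hg, inv_smul_smul]⟩
        · rintro z z' z'' ⟨g, hg⟩ ⟨h, hh⟩
          exact ⟨h * g, by rw [mul_smul, hg, hh]⟩ }
  have hE : ∀ z z', E z z' ↔ ∃ g : G, g • C.f z = C.f z' := fun z z' => Iff.rfl
  have hle : ∀ z z', (∃ g : G, g • C.f z = C.f z') →
      C.Le (θ + 3) (C.f z) C.top (C.f z') C.top := by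
    rintro z z' ⟨g, hg⟩
    rw [← hg]
    refine Ctx.le_of_smul (θ + 3) (C.f z) g fun v _ => ?_
    rw [C.B_top]
    exact mem_univ _
  have hE2 : ∀ z z', E z z' ↔ C.Le (θ + 3) (C.f z) C.top (C.f z') C.top ∧
      C.Le (θ + 3) (C.f z') C.top (C.f z) C.top := by
    intro z z'
    constructor
    · intro h
      exact ⟨hle z z' h, hle z' z (E.symm h)⟩
    · rintro ⟨h1, h2⟩
      exact hO G Y C _ _ θ (hst z) (hst z') h1 h2
  let _ : MeasurableSpace Y := borel Y
  have : BorelSpace Y := ⟨rfl⟩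
  have hmeas := (hM G Y C (θ + 3) hθ3).1 C.top C.top
  have hfm : Measurable C.f := C.cont.measurable
  have hEm : MeasurableSet {p : (ℕ → ℕ) × (ℕ → ℕ) | E p.1 p.2} := by
    have h1 : MeasurableSet ((fun p : (ℕ → ℕ) × (ℕ → ℕ) => (C.f p.1, C.f p.2)) ⁻¹'
        {p : Y × Y | C.Le (θ + 3) p.1 C.top p.2 C.top}) :=
      hmeas.preimage ((hfm.comp measurable_fst).prodMk (hfm.comp measurable_snd))
    have h2 : MeasurableSet ((fun p : (ℕ → ℕ) × (ℕ → ℕ) => (C.f p.2, C.f p.1)) ⁻¹'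
        {p : Y × Y | C.Le (θ + 3) p.1 C.top p.2 C.top}) :=
      hmeas.preimage ((hfm.comp measurable_snd).prodMk (hfm.comp measurable_fst))
    convert h1.inter h2 using 1
    ext p
    simp only [mem_ofPred_eq, hE2, mem_inter_iff, mem_preimage]
  rcases hS E hEm with hc | ⟨F, hF, hF2⟩
  · right
    obtain ⟨q, hq⟩ := exists_surjective_nat (Quotient E)
    refine ⟨fun n => (q n).out, fun z => ?_⟩
    obtain ⟨n, hn⟩ := hq (Quotient.mk E z)
    refine ⟨n, ?_⟩
    have h1 : E z (q n).out := by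
      rw [hn]
      exact E.symm (Quotient.mk_out z)
    exact h1
  · left
    exact ⟨F, hF, fun u v huv g hg => hF2 u v huv ⟨g, hg⟩⟩

end Pool.Agent.H57.HV
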