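import Pool.Agent.H71.HV.Targets

/-!
# CR: every point is stable at a countable level
-/

set_option autoImplicit false

open Set Topology TopologicalSpace Filter

namespace Pool.Agent.H57.HV

open Pool.Agent.H71.HV

universe u v

/-- CR -/
theorem cr : CRStmt.{u, v} := by
  intro G Y _ _ _ _ C x
  by_contra hcon
  push Not at hcon
  have h1 : ∀ β : Iio (Ordinal.omega.{0} 1), ∃ p : ℕ × ℕ,
      C.Le β.1 x p.1 x p.2 ∧ ¬ C.Le (β.1 + 1) x p.1 x p.2 := by
    intro β
    have hβ : β.1.card ≤ Cardinal.aleph0 := by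
      have h := β.2
      rw [mem_Iio, Cardinal.lt_omega_iff_card_lt] at h
      rw [← Cardinal.aleph_zero, ← Order.lt_succ_iff, Cardinal.succ_aleph]
      simpa using h
    have h2 := hcon β.1 hβ
    unfold Ctx.Stb at h2
    push Not at h2
    obtain ⟨i, j, r, s, hr, hs, h3, e, he, h4⟩ := h2
    exact ⟨(C.bt i r, C.bt j (s + e)), h3 e he, h4⟩
  choose p hp1 hp2 using h1
  have hinj : Function.Injective p := by
    have : ∀ β γ : Iio (Ordinal.omega.{0} 1), β < γ → p β ≠ p γ := by
      intro β γ hlt heq
      apply hp2 β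
      rw [heq]
      exact (hp1 γ).level (Order.add_one_le_of_lt hlt)
    intro β γ heq
    rcases lt_trichotomy β γ with h | h | h
    · exact absurd heq (this _ _ h)
    · exact h
    · exact absurd heq.symm (this _ _ h)
  have hc : Countable (Iio (Ordinal.omega.{0} 1)) := hinj.countable
  rw [← Cardinal.mk_le_aleph0_iff, Cardinal.mk_Iio_ordinal, Cardinal.lift_le_aleph0,
    Ordinal.card_omega] at hc
  exact absurd hc (not_le.2 Cardinal.aleph0_lt_aleph_one)

end Pool.Agent.H57.HV
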