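import Pool.Agent.H71.HV.Targets2

/-!
# EMB1: the universal Polish `G`-space of Becker and Kechris
-/

set_option autoImplicit false

open Set Topology TopologicalSpace Filter

namespace Pool.Agent.H57.HV

open Pool.Agent.H71.HV

universe u v

/-- sequences of `1`-Lipschitz functions with values in `[0, 1]` -/
def Uni (G : Type u) [MetricSpace G] : Type u :=
  {φ : ℕ → G → ℝ // (∀ k g, 0 ≤ φ k g ∧ φ k g ≤ 1) ∧ ∀ k g h, |φ k g - φ k h| ≤ dist g h}

namespace Uni

variable {G : Type u} [MetricSpace G]

instance : TopologicalSpace (Uni G) := instTopologicalSpaceSubtype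

lemma continuous_val : Continuous (fun φ : Uni G => φ.1) := continuous_subtype_val

lemma continuous_ev (k : ℕ) (h : G) : Continuous (fun φ : Uni G => φ.1 k h) :=
  (continuous_apply h).comp ((continuous_apply k).comp continuous_val)

instance : T2Space (Uni G) := by
  unfold Uni
  infer_instance

instance : CompactSpace (Uni G) := by
  have hc : IsCompact {φ : ℕ → G → ℝ | ∀ k, φ k ∈ {ψ : G → ℝ | ∀ g, ψ g ∈ Icc (0 : ℝ) 1}} :=
    isCompact_pi_infinite fun k => isCompact_pi_infinite fun g => isCompact_Icc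
  have hcl : IsClosed {φ : ℕ → G → ℝ | ∀ k g h, |φ k g - φ k h| ≤ dist g h} := by
    have : {φ : ℕ → G → ℝ | ∀ k g h, |φ k g - φ k h| ≤ dist g h} =
        ⋂ k, ⋂ g, ⋂ h, {φ : ℕ → G → ℝ | |φ k g - φ k h| ≤ dist g h} := by
      ext φ
      simp only [mem_iInter]
      rfl
    rw [this]
    refine isClosed_iInter fun k => isClosed_iInter fun g => isClosed_iInter fun h => ?_
    have h1 : Continuous fun φ : ℕ → G → ℝ => φ k g :=
      (continuous_apply g).comp (continuous_apply k)
    have h2 : Continuous fun φ : ℕ → G → ℝ => φ k h :=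
      (continuous_apply h).comp (continuous_apply k)
    exact isClosed_le ((h1.sub h2).abs) continuous_const
  have hK : IsCompact {φ : ℕ → G → ℝ | (∀ k g, 0 ≤ φ k g ∧ φ k g ≤ 1) ∧
      ∀ k g h, |φ k g - φ k h| ≤ dist g h} := by
    have h3 := hc.inter_right hcl
    refine h3.of_isClosed_subset ?_ ?_
    · have : {φ : ℕ → G → ℝ | (∀ k g, 0 ≤ φ k g ∧ φ k g ≤ 1) ∧
          ∀ k g h, |φ k g - φ k h| ≤ dist g h} =
          {φ : ℕ → G → ℝ | ∀ k, φ k ∈ {ψ : G → ℝ | ∀ g, ψ g ∈ Icc (0 : ℝ) 1}} ∩
          {φ : ℕ → G → ℝ | ∀ k g h, |φ k g - φ k h| ≤ dist g h} := by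
        ext φ
        rfl
      rw [this]
      exact h3.isClosed
    · intro φ hφ
      exact hφ
  exact isCompact_iff_compactSpace.1 hK

section dense

variable [SeparableSpace G] [Nonempty G]

/-- evaluation at a dense sequence -/
noncomputable def emb (φ : Uni G) : ℕ × ℕ → ℝ := fun p => φ.1 p.1 (denseSeq G p.2)

lemma continuous_emb : Continuous (emb : Uni G → ℕ × ℕ → ℝ) :=
  continuous_pi fun p => continuous_ev p.1 _

lemma continuous_fun (φ : Uni G) (k : ℕ) : Continuous (φ.1 k) := by
  have : LipschitzWith 1 (φ.1 k) := LipschitzWith.of_dist_le_mul fun g h => by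
    rw [Real.dist_eq]
    simpa using φ.2.2 k g h
  exact this.continuous

lemma emb_injective : Function.Injective (emb : Uni G → ℕ × ℕ → ℝ) := by
  intro φ ψ h
  apply Subtype.ext
  funext k
  refine (denseRange_denseSeq G).equalizer (continuous_fun φ k) (continuous_fun ψ k) ?_
  funext i
  exact congrFun h (k, i)

lemma isClosedEmbedding_emb : IsClosedEmbedding (emb : Uni G → ℕ × ℕ → ℝ) :=
  continuous_emb.isClosedEmbedding emb_injective

instance : PolishSpace (Uni G) := isClosedEmbedding_emb.polishSpace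

end dense

end Uni

theorem emb1 : Emb1Stmt.{u, v} := by
  intro G _ _ _ _ hR
  letI act : MulAction G (Uni G) :=
    { smul := fun g φ => ⟨fun k h => φ.1 k (h * g), fun k h => φ.2.1 k _, fun k h h' => by
        rw [← hR h h' g]
        exact φ.2.2 k _ _⟩
      one_smul := fun φ => by
        apply Subtype.ext
        funext k h
        change φ.1 k (h * 1) = φ.1 k h
        rw [mul_one]
      mul_smul := fun a b φ => by
        apply Subtype.ext
        funext k h
        change φ.1 k (h * (a * b)) = φ.1 k (h * a * b)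
        rw [mul_assoc] }
  have hsm : ∀ (g : G) (φ : Uni G) k h, (g • φ).1 k h = φ.1 k (h * g) := fun _ _ _ _ => rfl
  have hcont : ContinuousSMul G (Uni G) := by
    constructor
    refine Continuous.subtype_mk ?_ _
    refine continuous_pi fun k => continuous_pi fun h => ?_
    rw [continuous_iff_continuousAt]
    rintro ⟨g0, φ0⟩
    change Tendsto (fun p : G × Uni G => p.2.1 k (h * p.1)) (𝓝 (g0, φ0)) (𝓝 (φ0.1 k (h * g0)))
    rw [tendsto_iff_dist_tendsto_zero]
    have h1 : Tendsto (fun p : G × Uni G => dist (h * p.1) (h * g0) +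
        dist (p.2.1 k (h * g0)) (φ0.1 k (h * g0))) (𝓝 (g0, φ0)) (𝓝 (0 + 0)) := by
      refine Tendsto.add ?_ ?_
      · rw [← tendsto_iff_dist_tendsto_zero]
        exact (continuous_const.mul continuous_fst).tendsto (g0, φ0)
      · rw [← tendsto_iff_dist_tendsto_zero]
        exact ((Uni.continuous_ev k (h * g0)).comp continuous_snd).tendsto (g0, φ0)
    rw [add_zero] at h1
    refine squeeze_zero (fun _ => dist_nonneg) (fun p => ?_) h1
    refine (dist_triangle _ (p.2.1 k (h * g0)) _).trans ?_
    refine add_le_add ?_ le_rfl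
    rw [Real.dist_eq]
    exact p.2.2.2 k _ _
  refine ⟨Uni G, inferInstance, inferInstance, act, hcont, fun φ => φ.1,
    Subtype.val_injective, fun g y k h => hsm g y k h, ?_, ?_⟩
  · intro φ h1 h2
    exact ⟨⟨φ, h1, h2⟩, rfl⟩
  · intro A _ j hj
    have hind : (inferInstance : TopologicalSpace (Uni G)) =
        TopologicalSpace.induced (Uni.emb : Uni G → ℕ × ℕ → ℝ) inferInstance :=
      Uni.isClosedEmbedding_emb.isInducing.eq_induced
    have hb : borel (Uni G) = MeasurableSpace.comap (Uni.emb : Uni G → ℕ × ℕ → ℝ)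
        (borel (ℕ × ℕ → ℝ)) := by
      rw [← borel_comap, ← hind]
    rw [hb, measurable_comap_iff]
    rw [← BorelSpace.measurable_eq (α := ℕ × ℕ → ℝ)]
    rw [measurable_pi_iff]
    intro p
    exact hj p.1 _

end Pool.Agent.H57.HV
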