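import Pool.Agent.H71.HV.Targets2
import Pool.Agent.H59.TV.Vaught

/-!
# EMB2: Borel `G`-spaces embed into the universal space (Vaught transforms)
-/

set_option autoImplicit false

open Set Topology TopologicalSpace Filter

namespace Pool.Agent.H57.HV

open Pool.Agent.H71.HV
open Pool.Agent.H59.TV (NM measurable_NM baire_inter_open)

universe u v

section

variable {G : Type u} [Group G] [MetricSpace G] [IsTopologicalGroup G]
variable {X : Type v} [MulAction G X]

/-- the set `{(x, g) | φ (g • x) m}` -/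
def Bm (G : Type u) [Group G] {X : Type v} [MulAction G X] (φ : X → ℕ → Bool) (m : ℕ) :
    Set (X × G) := {p | φ (p.2 • p.1) m = true}

/-- admissible radii -/
def Rad (φ : X → ℕ → Bool) (m : ℕ) (x : X) (h : G) : Set ℝ :=
  {r | r = 1 ∨ (0 < r ∧ NM (Bm G φ m) (Metric.ball h r) x)}

/-- the Vaught transform as a `1`-Lipschitz function -/
noncomputable def rho (φ : X → ℕ → Bool) (x : X) (m : ℕ) (h : G) : ℝ := sInf (Rad φ m x h)

omit [IsTopologicalGroup G] in
lemma rad_pos {φ : X → ℕ → Bool} {m : ℕ} {x : X} {h : G} {r : ℝ} (hr : r ∈ Rad φ m x h) :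
    0 < r := by
  rcases hr with rfl | hr
  · exact one_pos
  · exact hr.1

omit [IsTopologicalGroup G] in
lemma bdd_rad (φ : X → ℕ → Bool) (m : ℕ) (x : X) (h : G) : BddBelow (Rad φ m x h) :=
  ⟨0, fun _ hr => (rad_pos hr).le⟩

omit [IsTopologicalGroup G] in
lemma rho_nonneg (φ : X → ℕ → Bool) (m : ℕ) (x : X) (h : G) : 0 ≤ rho φ x m h :=
  Real.sInf_nonneg fun _ hr => (rad_pos hr).le

omit [IsTopologicalGroup G] in
lemma rho_le_one (φ : X → ℕ → Bool) (m : ℕ) (x : X) (h : G) : rho φ x m h ≤ 1 :=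
  csInf_le (bdd_rad φ m x h) (Or.inl rfl)

omit [IsTopologicalGroup G] in
lemma rho_lt_iff (φ : X → ℕ → Bool) (m : ℕ) (x : X) (h : G) (c : ℝ) :
    rho φ x m h < c ↔ 1 < c ∨ ∃ r, 0 < r ∧ r < c ∧ NM (Bm G φ m) (Metric.ball h r) x := by
  unfold rho
  rw [csInf_lt_iff (bdd_rad φ m x h) ⟨1, Or.inl rfl⟩]
  constructor
  · rintro ⟨r, rfl | hr, hrc⟩
    · exact Or.inl hrc
    · exact Or.inr ⟨r, hr.1, hrc, hr.2⟩
  · rintro (hc | ⟨r, hr, hrc, hN⟩)
    · exact ⟨1, Or.inl rfl, hc⟩
    · exact ⟨r, Or.inr ⟨hr, hN⟩, hrc⟩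

omit [IsTopologicalGroup G] in
lemma NM_mono {φ : X → ℕ → Bool} {m : ℕ} {x : X} {U V : Set G} (h : U ⊆ V)
    (hN : NM (Bm G φ m) U x) : NM (Bm G φ m) V x := fun hm =>
  hN (hm.mono (inter_subset_inter_right _ h))

omit [IsTopologicalGroup G] in
lemma rho_lip_aux (φ : X → ℕ → Bool) (m : ℕ) (x : X) (g h : G) :
    rho φ x m h ≤ rho φ x m g + dist g h := by
  refine le_of_forall_pos_lt_add fun e he => ?_
  rw [rho_lt_iff]
  have h1 : rho φ x m g < rho φ x m g + e := by linarith
  rw [rho_lt_iff] at h1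
  have hd := dist_nonneg (x := g) (y := h)
  rcases h1 with h1 | ⟨r, hr, hrc, hN⟩
  · left; linarith
  · right
    refine ⟨r + dist g h, by linarith, by linarith, NM_mono ?_ hN⟩
    exact Metric.ball_subset_ball' le_rfl

omit [IsTopologicalGroup G] in
lemma rho_lip (φ : X → ℕ → Bool) (m : ℕ) (x : X) (g h : G) :
    |rho φ x m g - rho φ x m h| ≤ dist g h := by
  rw [abs_le]
  have h1 := rho_lip_aux φ m x g h
  have h2 := rho_lip_aux φ m x h g
  rw [dist_comm h g] at h2
  constructor <;> linarith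

lemma NM_smul (hR : RInv G) (φ : X → ℕ → Bool) (m : ℕ) (x : X) (g h : G) (r : ℝ) :
    NM (Bm G φ m) (Metric.ball h r) (g • x) ↔ NM (Bm G φ m) (Metric.ball (h * g) r) x := by
  unfold NM
  rw [not_iff_not]
  have e : ({a : G | (g • x, a) ∈ Bm G φ m} ∩ Metric.ball h r) =
      (Homeomorph.mulRight g) ⁻¹' ({a : G | (x, a) ∈ Bm G φ m} ∩ Metric.ball (h * g) r) := by
    ext a
    simp only [mem_inter_iff, mem_preimage, Homeomorph.coe_mulRight, Metric.mem_ball]
    rw [hR a h g]
    refine and_congr_left fun _ => ?_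
    change φ (a • g • x) m = true ↔ φ ((a * g) • x) m = true
    rw [smul_smul]
  rw [e]
  constructor
  · intro hm
    have h3 := hm.preimage_of_isOpenMap (f := (Homeomorph.mulRight g).symm)
      (Homeomorph.mulRight g).symm.continuous (Homeomorph.mulRight g).symm.isOpenMap
    rw [← preimage_comp] at h3
    have e2 : (Homeomorph.mulRight g : G → G) ∘ (Homeomorph.mulRight g).symm = id := by
      funext a
      exact (Homeomorph.mulRight g).apply_symm_apply a
    rw [e2, preimage_id] at h3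
    exact h3
  · intro hm
    exact hm.preimage_of_isOpenMap (Homeomorph.mulRight g).continuous
      (Homeomorph.mulRight g).isOpenMap

lemma rho_smul (hR : RInv G) (φ : X → ℕ → Bool) (m : ℕ) (x : X) (g h : G) :
    rho φ (g • x) m h = rho φ x m (h * g) := by
  unfold rho
  congr 1
  ext r
  simp only [Rad, mem_ofPred_eq, NM_smul hR]

end

section

variable {G : Type u} [Group G] [MetricSpace G] [IsTopologicalGroup G] [PolishSpace G]
  [MeasurableSpace G] [BorelSpace G]
variable {X : Type v} [MeasurableSpace X] [MulAction G X]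

omit [MetricSpace G] [IsTopologicalGroup G] [PolishSpace G] [BorelSpace G] in
lemma measurable_Bm [TopologicalSpace G] {φ : X → ℕ → Bool} (hφ : Measurable φ)
    (hact : Measurable fun p : G × X => p.1 • p.2) (m : ℕ) : MeasurableSet (Bm G φ m) := by
  have h1 : Measurable fun p : X × G => φ (p.2 • p.1) m :=
    (measurable_pi_apply m).comp (hφ.comp (hact.comp measurable_swap))
  exact h1 (measurableSet_singleton true)

omit [IsTopologicalGroup G] in
lemma measurable_rho {φ : X → ℕ → Bool} (hφ : Measurable φ)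
    (hact : Measurable fun p : G × X => p.1 • p.2) (m : ℕ) (h : G) :
    Measurable fun x : X => rho φ x m h := by
  refine measurable_of_Iio fun c => ?_
  have e : (fun x : X => rho φ x m h) ⁻¹' Iio c =
      {x : X | 1 < c} ∪ ⋃ q : ℚ, {x | (0 < (q : ℝ) ∧ (q : ℝ) < c) ∧
        NM (Bm G φ m) (Metric.ball h (q : ℝ)) x} := by
    ext x
    simp only [mem_preimage, mem_Iio, mem_union, mem_ofPred_eq, mem_iUnion, rho_lt_iff]
    refine or_congr_right ?_
    constructor
    · rintro ⟨r, hr, hrc, hN⟩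
      obtain ⟨q, hq1, hq2⟩ := exists_rat_btwn hrc
      exact ⟨q, ⟨hr.trans hq1, hq2⟩, NM_mono (Metric.ball_subset_ball hq1.le) hN⟩
    · rintro ⟨q, ⟨h1, h2⟩, hN⟩
      exact ⟨q, h1, h2, hN⟩
  rw [e]
  refine (MeasurableSet.const _).union (MeasurableSet.iUnion fun q => ?_)
  exact (MeasurableSet.const _).inter
    (measurable_NM (measurable_Bm hφ hact m) _ Metric.isOpen_ball)

omit [IsTopologicalGroup G] in
lemma generic_aux {φ : X → ℕ → Bool} (hφ : Measurable φ)
    (hact : Measurable fun p : G × X => p.1 • p.2) {x y : X}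
    (h : ∀ m (a : G), rho φ x m a = rho φ y m a) (m : ℕ) :
    IsMeagre {g : G | φ (g • x) m = true ∧ ¬ φ (g • y) m = true} := by
  have hmeas : ∀ z : X, MeasurableSet {g : G | φ (g • z) m = true} := by
    intro z
    have h1 : Measurable fun g : G => φ (g • z) m :=
      (measurable_pi_apply m).comp (hφ.comp (hact.comp (measurable_id.prodMk measurable_const)))
    exact h1 (measurableSet_singleton true)
  by_contra hnm
  have hb : BaireMeasurableSet
      ({g : G | φ (g • x) m = true} \ {g : G | φ (g • y) m = true}) :=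
    ((hmeas x).diff (hmeas y)).baireMeasurableSet
  obtain ⟨V, hV, ⟨v, hv⟩, -, hVm⟩ := baire_inter_open hb isOpen_univ (by
    rw [inter_univ]
    exact hnm)
  obtain ⟨r0, hr0, hball⟩ := Metric.isOpen_iff.1 hV v hv
  set r : ℝ := min r0 1 with hr
  have hrpos : 0 < r := lt_min hr0 one_pos
  have hr1 : r ≤ 1 := min_le_right _ _
  have hrV : Metric.ball v r ⊆ V := (Metric.ball_subset_ball (min_le_left _ _)).trans hball
  have h1 : NM (Bm G φ m) (Metric.ball v (r / 2)) x := by
    intro hm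
    refine not_isMeagre_of_isOpen (Metric.isOpen_ball (x := v) (ε := r / 2))
      ⟨v, Metric.mem_ball_self (by linarith)⟩ ((hm.union hVm).mono ?_)
    intro g hg
    by_cases hgx : φ (g • x) m = true
    · exact Or.inl ⟨hgx, hg⟩
    · exact Or.inr ⟨hrV (Metric.ball_subset_ball (by linarith) hg), fun h' => hgx h'.1⟩
  have h2 : rho φ x m v < r := by
    rw [rho_lt_iff]
    exact Or.inr ⟨r / 2, by linarith, by linarith, h1⟩
  rw [h m v, rho_lt_iff] at h2
  rcases h2 with h2 | ⟨s, hs, hsr, hN⟩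
  · linarith
  · apply hN
    refine hVm.mono ?_
    rintro g ⟨hgy, hg⟩
    exact ⟨hrV (Metric.ball_subset_ball hsr.le hg), fun h' => h'.2 hgy⟩

omit [IsTopologicalGroup G] in
theorem eq_of_rho {φ : X → ℕ → Bool} (hφ : Measurable φ) (hφi : Function.Injective φ)
    (hact : Measurable fun p : G × X => p.1 • p.2) {x y : X}
    (h : ∀ m (a : G), rho φ x m a = rho φ y m a) : x = y := by
  have h1 := generic_aux hφ hact h
  have h2 := generic_aux hφ hact (x := y) (y := x) (fun m a => (h m a).symm)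
  have h3 : IsMeagre (⋃ m, ({g : G | φ (g • x) m = true ∧ ¬ φ (g • y) m = true} ∪
      {g : G | φ (g • y) m = true ∧ ¬ φ (g • x) m = true})) :=
    isMeagre_iUnion fun m => (h1 m).union (h2 m)
  have h4 : ∃ g : G, g ∉ (⋃ m, ({g : G | φ (g • x) m = true ∧
      ¬ φ (g • y) m = true} ∪ {g : G | φ (g • y) m = true ∧ ¬ φ (g • x) m = true})) := by
    by_contra hcon
    push Not at hcon
    apply not_isMeagre_of_isOpen (X := G) isOpen_univ ⟨1, mem_univ _⟩
    exact h3.mono fun g _ => hcon g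
  obtain ⟨g, hg⟩ := h4
  have h5 : φ (g • x) = φ (g • y) := by
    funext m
    by_contra hne
    apply hg
    refine mem_iUnion.2 ⟨m, ?_⟩
    rcases Bool.eq_false_or_eq_true (φ (g • x) m) with hx | hx <;>
      rcases Bool.eq_false_or_eq_true (φ (g • y) m) with hy | hy
    · exact absurd (hx.trans hy.symm) hne
    · exact Or.inl ⟨hx, by rw [hy]; simp⟩
    · exact Or.inr ⟨hy, by rw [hx]; simp⟩
    · exact absurd (hx.trans hy.symm) hne
  exact (MulAction.injective g) (hφi h5)

end

theorem emb2 : Emb2Stmt.{u, v} := by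
  intro hE G _ _ _ _ _ _ hR X _ _ _ hact
  obtain ⟨Y, tY, pY, aY, cY, ev, hinj, hev, hsurj, hmeas⟩ := hE G hR
  obtain ⟨φ, hφ, hφi⟩ :=
    MeasurableSpace.measurable_injection_nat_bool_of_countablySeparated X
  have hj : ∀ x : X, ∃ y : Y, ev y = rho φ x := fun x =>
    hsurj _ (fun k g => ⟨rho_nonneg φ k x g, rho_le_one φ k x g⟩) fun k g h => rho_lip φ k x g h
  choose j hj using hj
  let mY : MeasurableSpace Y := borel Y
  have bY : BorelSpace Y := ⟨rfl⟩
  refine ⟨Y, tY, pY, aY, cY, mY, bY, j, ?_, ?_, ?_⟩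
  · refine hmeas X j fun k h => ?_
    simp only [hj]
    exact measurable_rho hφ hact k h
  · intro x y hxy
    refine eq_of_rho (G := G) hφ hφi hact fun m a => ?_
    rw [← hj x, ← hj y, hxy]
  · intro g x
    apply hinj
    funext k h
    rw [hev, hj, hj]
    exact rho_smul hR φ k x g h

end Pool.Agent.H57.HV
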