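import Pool.Agent.H71.HV.Targets

/-!
# MS: measurability of Hjorth's relations and of stability; CR: every point is stable at a
countable level
-/

set_option autoImplicit false

open Set Topology TopologicalSpace Filter

namespace Pool.Agent.H57.HV

open Pool.Agent.H71.HV

universe u v

lemma countable_Iio_of_card {α : Ordinal.{0}} (h : α.card ≤ Cardinal.aleph0) :
    Countable (Iio α) := by
  rw [← Cardinal.mk_le_aleph0_iff, Cardinal.mk_Iio_ordinal, Cardinal.lift_le_aleph0]
  exact h

/-- MS -/
theorem ms : MeasStmt.{u, v} := by
  intro G Y _ _ _ _ _ _ _ _ C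
  have key : ∀ α : Ordinal.{0}, α.card ≤ Cardinal.aleph0 → ∀ V W,
      Measurable (fun p : Y × Y => C.Le α p.1 V p.2 W) := by
    intro α
    induction α using WellFoundedLT.induction with
    | _ α ih =>
      intro hα V W
      have := countable_Iio_of_card hα
      have h1 : ∀ k V, Measurable (fun x : Y => C.Hit x V k) := fun k V =>
        measurableSet_setOfPred.1 (C.isOpen_hit V k).measurableSet
      have h2 : (fun p : Y × Y => C.Le α p.1 V p.2 W) = fun p : Y × Y =>
          (∀ k, C.Hit p.1 V k → C.Hit p.2 W k) ∧
            ∀ β : Iio α, ∀ V', C.B V' ⊆ C.B V → ∃ W', C.B W' ⊆ C.B W ∧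
              C.Le β.1 p.2 W' p.1 V' := by
        funext p
        rw [Ctx.le_iff]
        simp only [Subtype.forall, mem_Iio]
      rw [h2]
      refine Measurable.and (Measurable.forall fun k => Measurable.imp
        ((h1 k V).comp measurable_fst) ((h1 k W).comp measurable_snd)) ?_
      refine Measurable.forall fun β => Measurable.forall fun V' => Measurable.imp
        measurable_const (Measurable.exists fun W' => Measurable.and measurable_const ?_)
      exact (ih β.1 β.2 ((Ordinal.card_le_card β.2.le).trans hα) W' V').comp measurable_swap
  intro α hα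
  refine ⟨fun V W => measurableSet_setOfPred.2 (key α hα V W), measurableSet_setOfPred.2 ?_⟩
  have hα1 : (α + 1).card ≤ Cardinal.aleph0 := by
    rw [Ordinal.card_add, Ordinal.card_one]
    exact Cardinal.add_le_aleph0.2 ⟨hα, Cardinal.one_le_aleph0⟩
  have key' : ∀ β : Ordinal.{0}, β.card ≤ Cardinal.aleph0 → ∀ V W,
      Measurable (fun x : Y => C.Le β x V x W) := fun β hβ V W =>
    (key β hβ V W).comp (measurable_id.prodMk measurable_id)
  unfold Ctx.Stb
  refine Measurable.forall fun i => Measurable.forall fun j => Measurable.forall fun r =>
    Measurable.forall fun s => Measurable.imp measurable_const (Measurable.imp measurable_const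
    (Measurable.imp (Measurable.forall fun e => Measurable.imp measurable_const ?_)
    (Measurable.forall fun e => Measurable.imp measurable_const ?_)))
  · exact key' α hα _ _
  · exact key' (α + 1) hα1 _ _

end Pool.Agent.H57.HV
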