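import Pool.Agent.H71.HV.Targets

/-!
# FR: existence of frames
-/

set_option autoImplicit false

open Set Topology TopologicalSpace Filter

namespace Pool.Agent.H57.HV

open Pool.Agent.H71.HV

universe u v

/-- FR -/
theorem fr : FrameStmt.{u} := by
  intro G _ _ _ _
  classical
  let cen : ℕ → G := denseSeq G
  let K := List ℕ × ℕ × ℚ
  let en : K ≃ ℕ := Denumerable.eqv K
  let B' : K → Set G := fun k =>
    if 0 < k.2.2 then
      (fun g => (k.1.map cen).prod * g) '' Metric.ball (cen k.2.1) (k.2.2 : ℝ)
    else univ
  have hB' : ∀ k : K, B' k = if 0 < k.2.2 then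
      (fun g => (k.1.map cen).prod * g) '' Metric.ball (cen k.2.1) (k.2.2 : ℝ)
    else univ := fun k => rfl
  refine ⟨{
    B := fun n => B' (en.symm n)
    top := en ([], 0, 0)
    cen := cen
    bt := fun i r => en ([], i, r)
    tr := fun i n => en (i :: (en.symm n).1, (en.symm n).2)
    isOpen_B := ?_
    nonempty_B := ?_
    B_top := ?_
    dense_cen := denseRange_denseSeq G
    B_bt := ?_
    B_tr := ?_ }⟩
  · intro n
    rw [hB']
    split_ifs with h
    · exact (isOpenMap_mul_left _) _ Metric.isOpen_ball
    · exact isOpen_univ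
  · intro n
    rw [hB']
    split_ifs with h
    · refine Set.Nonempty.image _ ⟨_, Metric.mem_ball_self ?_⟩
      exact_mod_cast h
    · exact ⟨1, mem_univ _⟩
  · rw [Equiv.symm_apply_apply, hB']
    simp
  · intro i r hr
    rw [Equiv.symm_apply_apply, hB']
    simp [hr]
  · intro i n
    rw [Equiv.symm_apply_apply, hB', hB']
    by_cases h : 0 < (en.symm n).2.2
    · rw [if_pos h, if_pos h, image_image]
      simp only [List.map_cons, List.prod_cons, mul_assoc]
    · rw [if_neg h, if_neg h]
      symm
      rw [eq_univ_iff_forall]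
      intro g
      exact ⟨(cen i)⁻¹ * g, mem_univ _, mul_inv_cancel_left _ _⟩

end Pool.Agent.H57.HV
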