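import Pool.Agent.H97.HV.Targets

/-!
# MP_e37c09_lc, module NOM: in the first case there is no such measure
-/

open Ordinal Cardinal Order Set
open scoped ZFSet

universe u

namespace Pool.Agent.H57.HV

open _root_.HD HD.PRK HD.HV

/-- A set of fewer than `K` ordinals below `K` is bounded. -/
theorem bdd_of_card {K : Cardinal.{u}} (hK : K.IsRegular) {Y : Set Ordinal.{u}}
    (hY : #Y < Cardinal.lift.{u + 1} K) (hb : ∀ y ∈ Y, y < K.ord) :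
    ∃ b < K.ord, ∀ y ∈ Y, y ≤ b := by
  have h1 : sSup Y < K.ord := by
    refine sSup_lt_of_lt_cof ?_ hb
    rw [← Ordinal.lift_cof, hK.cof_ord]
    exact hY
  refine ⟨sSup Y, h1, fun y hy => ?_⟩
  exact le_csSup ⟨K.ord, fun z hz => (hb z hz).le⟩ hy

theorem pf_NOM (h1 : T_YR.{u}) (h2 : T_NMF.{u}) (h3 : T_DGN.{u}) : T_NOM.{u} := by
  intro δ hδ hA K hK hδK γ hγ hM
  obtain ⟨U, hU, hS⟩ := hM
  obtain ⟨D, hD, -, -, hD0⟩ : ∃ D : Cardinal.{u}, δ = D.ord ∧ D.IsRegular ∧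
      D.IsStrongLimit ∧ ℵ₀ < D := by
    obtain ⟨η, -, θ, j, h⟩ := HD.All.xa δ hδ 0
    exact HD.All.xb δ η θ j h
  subst hD
  have hDK : D < K := Cardinal.ord_lt_ord.1 hδK
  have hK0 : ℵ₀ < K := hD0.trans hDK
  obtain ⟨R, hR, hRα⟩ := h1 D.ord hδ hA
  obtain ⟨A, S, hSU, hSA⟩ := h3 γ hγ K U hU R hR
  obtain ⟨hi, hu⟩ := h2 γ hγ K hK0 U hU
  have hu' := hu _ (hi _ hSU _ hS)
  have key : ∀ b < K.ord, ∃ a, b ≤ a ∧ a < K.ord ∧ Few D.ord (A ∩ Iio a) ∧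
      ∀ c < a, ∃ x, c ≤ x ∧ x ∈ A ∧ x < a := by
    intro b hb
    obtain ⟨a, hba, haK, ha⟩ := hu' b hb
    obtain ⟨ha1, ha2⟩ := ZFSet.mem_inter.1 ha
    obtain ⟨-, ha3, ha4⟩ := ord_mem_os.1 ha2
    obtain ⟨r1, ⟨τ, hτ, e, he⟩, r3⟩ := hRα a ha3 ha4
    refine ⟨a, hba, haK, ⟨τ, hτ, e, fun x hx => he x ?_⟩, fun c hc => ?_⟩
    · exact (hSA a ha1 x hx.2).2 hx.1
    · obtain ⟨η, h4, h5⟩ := r3 c hc
      exact ⟨η, h4, (hSA a ha1 η (r1 η h5)).1 h5, r1 η h5⟩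
  have hbig : Cardinal.lift.{u + 1} D ≤ #(A ∩ Iio K.ord : Set Ordinal.{u}) := by
    by_contra hc
    push Not at hc
    obtain ⟨b, hb, hbb⟩ := bdd_of_card hK (hc.trans (Cardinal.lift_lt.2 hDK)) fun y hy => hy.2
    have hsb : succ b < K.ord := (Cardinal.isSuccLimit_ord hK.aleph0_le).succ_lt hb
    obtain ⟨a, ha1, ha2, -, ha3⟩ := key (succ (succ b))
      ((Cardinal.isSuccLimit_ord hK.aleph0_le).succ_lt hsb)
    obtain ⟨x, hx1, hx2, hx3⟩ := ha3 (succ b) (lt_of_lt_of_le (lt_succ _) ha1)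
    exact absurd (hbb x ⟨hx2, hx3.trans ha2⟩) (not_le.2 (lt_of_lt_of_le (lt_succ b) hx1))
  obtain ⟨Y, hYs, hYc⟩ := Cardinal.le_mk_iff_exists_subset.1 hbig
  obtain ⟨b, hb, hbb⟩ := bdd_of_card hK (by rw [hYc]; exact Cardinal.lift_lt.2 hDK)
    fun y hy => (hYs hy).2
  obtain ⟨a, ha1, -, ha2, -⟩ := key (succ b) ((Cardinal.isSuccLimit_ord hK.aleph0_le).succ_lt hb)
  have h6 : Y ⊆ A ∩ Iio a := fun y hy =>
    ⟨(hYs hy).1, lt_of_le_of_lt (hbb y hy) (lt_of_lt_of_le (lt_succ b) ha1)⟩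
  have h7 := (Cardinal.mk_le_mk_of_subset h6).trans_lt (few_iff.1 ha2)
  rw [hYc] at h7
  exact lt_irrefl _ h7

end Pool.Agent.H57.HV
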