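import Pool.Agent.H97.HV.Targets6
import Pool.Agent.H57.HV.NOM
import Pool.Agent.H13.HVZ.RCS

/-!
# MP_e37c09_lc, module SG2: no such measure concentrates on ordinals which are singular in HOD
-/

open Ordinal Cardinal Order Set
open scoped ZFSet

universe u

namespace Pool.Agent.H57.HV

open _root_.HD HD.PRK HD.HV

theorem pf_SG2 (h1 : T_NM2.{u}) : T_SG2.{u} := by
  intro γ hγ K hK hK0 U hU D hD
  by_contra hcon
  push Not at hcon
  obtain ⟨R, T, hR, hT, hRT⟩ := Pool.Agent.H13.HVZ.pf_RCSo.{u}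
  obtain ⟨A, D1, hD1, hA⟩ := hU.dgn R hR
  obtain ⟨B, D2, hD2, hB⟩ := hU.dgn T hT
  obtain ⟨hi, hu⟩ := h1 γ hγ K hK0 U hU.cm
  have hu' := hu _ (hi _ hD _ (hi _ hD1 _ hD2))
  obtain ⟨b0, -, hb0K, hb0⟩ := hu' 0 (Cardinal.lt_ord.2 (by
    rw [Ordinal.card_zero]
    exact lt_trans Cardinal.aleph0_pos hK0))
  obtain ⟨hb0a, hb0b⟩ := ZFSet.mem_inter.1 hb0
  obtain ⟨hb0b, hb0c⟩ := ZFSet.mem_inter.1 hb0b
  obtain ⟨t, htb, hTt, -⟩ := hRT b0 (hcon b0 hb0K hb0a)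
  have htB : t ∈ B := (hB b0 hb0c t htb).1 ((hTt t).2 rfl)
  -- the key fact
  have key : ∀ c < K.ord, ∃ b, c ≤ b ∧ b < K.ord ∧
      (∃ g : Ordinal.{u} → Ordinal.{u}, (∀ n n', n ∈ A → n' ∈ A → n' < b → n < n' →
        g n < g n') ∧ ∀ n ∈ A, n < b → g n < t) ∧ ∀ c < b, ∃ n, c ≤ n ∧ n ∈ A ∧ n < b := by
    intro c hc
    obtain ⟨b, hcb, hbK, hb⟩ := hu' (max c b0) (max_lt hc hb0K)
    obtain ⟨hba, hbb⟩ := ZFSet.mem_inter.1 hb
    obtain ⟨hbb, hbc⟩ := ZFSet.mem_inter.1 hbb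
    obtain ⟨τ, hτb, hτ, ⟨g, hg1, hg2⟩, hlt, hcof⟩ := hRT b (hcon b hbK hba)
    have hb0b' : b0 ≤ b := (le_max_right _ _).trans hcb
    have hTb : T b t := (hB b hbc t (lt_of_lt_of_le htb hb0b')).2 htB
    have htτ : t = τ := (hτ t).1 hTb
    have hAR : ∀ n, n < b → (R b n ↔ n ∈ A) := fun n hn => hA b hbb n hn
    refine ⟨b, (le_max_left _ _).trans hcb, hbK, ⟨g, ?_, ?_⟩, ?_⟩
    · intro n n' hn hn' hlt' hnn
      exact hg1 n n' ((hAR n (hnn.trans hlt')).2 hn) ((hAR n' hlt').2 hn') hnn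
    · intro n hn hnb
      rw [htτ]
      exact hg2 n ((hAR n hnb).2 hn)
    · intro c' hc'
      obtain ⟨n, hn1, hn2⟩ := hcof c' hc'
      exact ⟨n, hn1, (hAR n (hlt n hn2)).1 hn2, hlt n hn2⟩
  have hlim : IsSuccLimit K.ord := Cardinal.isSuccLimit_ord hK.aleph0_le
  have htK : t < K.ord := htb.trans hb0K
  -- `A` is unbounded in `K`
  have hunb : ∀ c < K.ord, ∃ n ∈ A, c ≤ n ∧ n < K.ord := by
    intro c hc
    obtain ⟨b, hcb, hbK, -, hb⟩ := key (succ c) (hlim.succ_lt hc)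
    obtain ⟨n, hn1, hn2, hn3⟩ := hb c (lt_of_lt_of_le (lt_succ c) hcb)
    exact ⟨n, hn2, hn1, hn3.trans hbK⟩
  -- the enumeration
  obtain ⟨A', hA'⟩ : ∃ A' : Set Ordinal.{u}, A' = (A ∩ Iio K.ord) ∪ Ici K.ord := ⟨_, rfl⟩
  have hmA : ∀ z, z ∈ A' ↔ (z ∈ A ∧ z < K.ord) ∨ K.ord ≤ z := by
    intro z
    rw [hA']
    rfl
  have hnb : ¬ BddAbove A' := by
    rw [not_bddAbove_iff]
    intro x
    exact ⟨max K.ord (succ x), (hmA _).2 (Or.inr (le_max_left _ _)),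
      lt_of_lt_of_le (lt_succ x) (le_max_right _ _)⟩
  have hsm := enumOrd_strictMono hnb
  have hltK : enumOrd A' t < K.ord := by
    by_contra hge
    push Not at hge
    have hsub : A ∩ Iio K.ord ⊆ enumOrd A' '' Iio t := by
      intro n hn
      obtain ⟨i, hi⟩ := enumOrd_surjective hnb ((hmA n).2 (Or.inl hn))
      refine ⟨i, ?_, hi⟩
      show i < t
      rw [← hsm.lt_iff_lt, hi]
      exact lt_of_lt_of_le hn.2 hge
    have hcard : #(A ∩ Iio K.ord : Set Ordinal.{u}) < Cardinal.lift.{u + 1} K := by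
      refine ((Cardinal.mk_le_mk_of_subset hsub).trans Cardinal.mk_image_le).trans_lt ?_
      rw [Cardinal.mk_Iio_ordinal, Cardinal.lift_lt]
      exact Cardinal.lt_ord.1 htK
    obtain ⟨b, hb, hbb⟩ := bdd_of_card hK hcard fun y hy => hy.2
    obtain ⟨n, hn1, hn2, hn3⟩ := hunb (succ b) (hlim.succ_lt hb)
    exact absurd (hbb n ⟨hn1, hn3⟩) (not_le.2 (lt_of_lt_of_le (lt_succ b) hn2))
  obtain ⟨b, hcb, hbK, ⟨g, hg1, hg2⟩, -⟩ := key (succ (enumOrd A' t)) (hlim.succ_lt hltK)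
  have hmem : ∀ i ≤ t, enumOrd A' i ∈ A ∧ enumOrd A' i < b := by
    intro i hi
    have h4 : enumOrd A' i ≤ enumOrd A' t := hsm.monotone hi
    refine ⟨?_, lt_of_le_of_lt h4 (lt_of_lt_of_le (lt_succ _) hcb)⟩
    rcases (hmA _).1 (enumOrd_mem hnb i) with h5 | h5
    · exact h5.1
    · exact absurd (lt_of_le_of_lt h4 hltK) (not_lt.2 h5)
  have hle : ∀ i ≤ t, i ≤ g (enumOrd A' i) := by
    intro i
    induction i using WellFoundedLT.induction with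
    | _ i ih =>
      intro hi
      by_contra hc
      push Not at hc
      have h6 := ih _ hc (hc.le.trans hi)
      have h7 := hg1 _ _ (hmem _ (hc.le.trans hi)).1 (hmem i hi).1 (hmem i hi).2 (hsm hc)
      exact absurd (lt_of_le_of_lt h6 h7) (lt_irrefl _)
  exact absurd (lt_of_le_of_lt (hle t le_rfl) (hg2 _ (hmem t le_rfl).1 (hmem t le_rfl).2))
    (lt_irrefl _)

end Pool.Agent.H57.HV
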